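import Pool.Agent.W662.SK.StmtsB

set_option autoImplicit false
set_option linter.unusedSectionVars false

open scoped InnerProductSpace ENNReal
open Filter Topology

namespace Pool.Agent.W405.SK.WF

open Pool.Agent.W662.SK

section
variable {Γ E : Type} [Group Γ] [NormedAddCommGroup E] [InnerProductSpace ℂ E]

open Classical in
/-- truncation of a square-summable family to a finite set -/
noncomputable def tr (S : Finset Γ) (f : L2 Γ E) : L2 Γ E :=
  ∑ k ∈ S, (lp.single 2 k (f k) : L2 Γ E)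

lemma tr_apply_mem {S : Finset Γ} (f : L2 Γ E) {k : Γ} (hk : k ∈ S) : tr S f k = f k := by
  classical
  unfold tr
  rw [l2_sum_apply, Finset.sum_eq_single k]
  · simp
  · intro b _ hb
    exact lp.single_apply_ne _ _ _ (Ne.symm hb)
  · intro h; exact absurd hk h

lemma tr_apply_not_mem {S : Finset Γ} (f : L2 Γ E) {k : Γ} (hk : k ∉ S) : tr S f k = 0 := by
  classical
  unfold tr
  rw [l2_sum_apply]
  refine Finset.sum_eq_zero fun b hb => ?_
  exact lp.single_apply_ne _ _ _ (fun h => hk (h ▸ hb))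

lemma tr_tendsto (f : L2 Γ E) : Tendsto (fun S : Finset Γ => tr S f) atTop (𝓝 f) := by
  classical
  have h := hasSum_single' f
  unfold HasSum at h
  rw [SummationFilter.unconditional_filter] at h
  exact h

lemma inner_tr (S : Finset Γ) (f h : L2 Γ E) (g : Γ) :
    ⟪tr S f, Lam E g (tr S h)⟫_ℂ = ∑ k ∈ S, ⟪tr S f (g * k), tr S h k⟫_ℂ := by
  have h1 := inner_hasSum (tr S f) (Lam E g (tr S h))
  have h2 : HasSum (fun k : Γ => ⟪tr S f (g * k), tr S h k⟫_ℂ) ⟪tr S f, Lam E g (tr S h)⟫_ℂ := by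
    have h3 := (Equiv.hasSum_iff (Equiv.mulLeft g)).2 h1
    convert h3 using 2 with k
    change _ = ⟪tr S f (g * k), tr S h (g⁻¹ * (g * k))⟫_ℂ
    rw [inv_mul_cancel_left]
  have h4 : HasSum (fun k : Γ => ⟪tr S f (g * k), tr S h k⟫_ℂ)
      (∑ k ∈ S, ⟪tr S f (g * k), tr S h k⟫_ℂ) := by
    refine hasSum_sum_of_ne_finset_zero fun k hk => ?_
    rw [tr_apply_not_mem h hk, inner_zero_right]
  exact h2.unique h4

end

theorem wf : S_WF := by
  intro Γ K _ _ _ _ π hπ n ζ F ε hε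
  obtain ⟨E, i1, i2, i3, η, hη⟩ := hπ n ζ F (ε / 2) (by positivity)
  obtain ⟨B, b, -⟩ := exists_hilbertBasis ℂ E
  have hS : ∀ᶠ S : Finset Γ in atTop, ∀ g ∈ F, ∀ i j : Fin n,
      ‖⟪η j, Lam E g (η i)⟫_ℂ - ⟪tr S (η j), Lam E g (tr S (η i))⟫_ℂ‖ < ε / 2 := by
    rw [Filter.eventually_all_finset]
    intro g _
    rw [Filter.eventually_all]
    intro i
    rw [Filter.eventually_all]
    intro j
    have h1 : Tendsto (fun S : Finset Γ => ⟪tr S (η j), Lam E g (tr S (η i))⟫_ℂ) atTop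
        (𝓝 ⟪η j, Lam E g (η i)⟫_ℂ) :=
      (tr_tendsto (η j)).inner (((Lam E g).continuous.tendsto _).comp (tr_tendsto (η i)))
    have h2 : Tendsto (fun S : Finset Γ =>
        ‖⟪η j, Lam E g (η i)⟫_ℂ - ⟪tr S (η j), Lam E g (tr S (η i))⟫_ℂ‖) atTop (𝓝 0) := by
      have := (tendsto_const_nhds (x := ⟪η j, Lam E g (η i)⟫_ℂ)).sub h1
      rw [sub_self] at this
      simpa using this.norm
    exact h2.eventually (gt_mem_nhds (by positivity))
  obtain ⟨S, hS⟩ := hS.exists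
  refine ⟨B, S, fun i k => b.repr (tr S (η i) k), ?_, ?_⟩
  · intro i k hk
    change b.repr (tr S (η i) k) = 0
    rw [tr_apply_not_mem _ hk, map_zero]
  · intro g hg i j
    have h1 := hη g hg i j
    have h2 := hS g hg i j
    have h3 : ∑ k ∈ S, ⟪b.repr (tr S (η j) (g * k)), b.repr (tr S (η i) k)⟫_ℂ =
        ⟪tr S (η j), Lam E g (tr S (η i))⟫_ℂ := by
      rw [inner_tr]
      refine Finset.sum_congr rfl fun k _ => ?_
      exact LinearIsometryEquiv.inner_map_map _ _ _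
    change ‖_ - ∑ k ∈ S, ⟪b.repr (tr S (η j) (g * k)), b.repr (tr S (η i) k)⟫_ℂ‖ < ε
    rw [h3]
    calc _ = ‖(⟪ζ j, π g (ζ i)⟫_ℂ - ⟪η j, Lam E g (η i)⟫_ℂ) +
        (⟪η j, Lam E g (η i)⟫_ℂ - ⟪tr S (η j), Lam E g (tr S (η i))⟫_ℂ)‖ := by
          congr 1; ring
      _ ≤ _ := norm_add_le _ _
      _ < ε := by linarith

end Pool.Agent.W405.SK.WF
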